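import Pool.Agent.helper77.PV.SpecC

set_option autoImplicit false

open scoped Matrix Topology
open Filter

namespace Pool.Agent.PV

open Pool.Agent.CZ

theorem D0E (hZLP : ZLP_stmt) (hBET : BET_stmt) (hD1E : D1E_stmt) (hHOE : HOE_stmt) : D0E_stmt := by
  intro B A _ _ _ _ _ _ al io u c hZ
  have h : Continuous (al : B →ₐ[ℂ] B) := by
    refine AddMonoidHomClass.continuous_of_bound (al : B →ₐ[ℂ] B) 1 ?_
    intro b
    rw [one_mul]
    exact le_of_eq (hZ.isoB b)
  have h' : Continuous (al.symm : B →ₐ[ℂ] B) := by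
    refine AddMonoidHomClass.continuous_of_bound (al.symm : B →ₐ[ℂ] B) 1 ?_
    intro b
    rw [one_mul]
    have e := hZ.isoB (al.symm b)
    rw [al.apply_symm_apply] at e
    exact le_of_eq e.symm
  have hi : Continuous io := by
    refine AddMonoidHomClass.continuous_of_bound io 1 ?_
    intro b
    rw [one_mul]
    exact le_of_eq (hZ.isoA b)
  obtain ⟨cc, hcc, hcv⟩ := hZLP B A al io u c h h' hi hZ
  obtain ⟨be, hbe⟩ := hBET A
  obtain ⟨dl, hdl⟩ := hD1E _ _ _ _ _ _ hcc
  obtain ⟨de, hde⟩ := hHOE B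
  exact ⟨de.comp (dl.comp be), h, h', hi, cc, be, dl, de, hcc, hcv, hbe, hdl, hde, fun z => rfl⟩

end Pool.Agent.PV
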