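import Pool.Agent.helper53.PV.SpecD

set_option autoImplicit false

open scoped Topology
open MeasureTheory Filter

namespace Pool.Agent.PV

open Pool.Agent.CZ

theorem DZM : DZM_stmt := by
  intro X X₀ _ _ _ _ α α₀ π hπ A A₀ _ _ ι u ι₀ u₀ Φ hΦ hu
  refine ⟨?_, ?_, ?_, ?_, ?_⟩
  · exact π.continuous_precomp
  · refine AddMonoidHomClass.continuous_of_bound Φ.toAlgHom 1 ?_
    intro b
    rw [one_mul]
    exact NonUnitalStarAlgHom.norm_apply_le Φ b
  · intro b
    ext x
    change b (α₀.symm (π x)) = b (π (α.symm x))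
    congr 1
    apply α₀.injective
    rw [← hπ, Homeomorph.apply_symm_apply, Homeomorph.apply_symm_apply]
  · intro b
    exact hΦ b
  · exact hu

end Pool.Agent.PV
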