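import Pool.Agent.helper53.PV.SpecD

set_option autoImplicit false

open scoped Topology
open MeasureTheory Filter

namespace Pool.Agent.PV

open Pool.Agent.CZ

theorem DZP_unit {A : Type} [CStarAlgebra A] (u : unitary A) : ‖(u : A)‖ ≤ 1 := by
  rcases subsingleton_or_nontrivial A with h | h
  · rw [Subsingleton.elim (u : A) 0, norm_zero]
    exact zero_le_one
  · exact le_of_eq (CStarRing.norm_coe_unitary u)

theorem DZP_up {A : Type} [CStarAlgebra A] (u : unitary A) (n : ℤ) :
    (((Unitary.toUnits u) ^ n : Aˣ) : A) = up u n := by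
  unfold up
  rw [← map_zpow]
  rfl

theorem DZP_norm {X : Type} [TopologicalSpace X] [CompactSpace X] (α : X ≃ₜ X) (b : C(X, ℂ)) :
    ‖alC α b‖ = ‖b‖ := by
  apply le_antisymm
  · rw [ContinuousMap.norm_le _ (norm_nonneg _)]
    intro x
    exact ContinuousMap.norm_coe_le_norm b (α.symm x)
  · rw [ContinuousMap.norm_le _ (norm_nonneg _)]
    intro x
    have h := ContinuousMap.norm_coe_le_norm (alC α b) (α x)
    have h2 : (alC α b) (α x) = b x := congrArg b (α.symm_apply_apply x)
    rw [h2] at h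
    exact h

theorem DZP : DZP_stmt := by
  intro X _ _ α A _ ι u c hC
  have h0 : up u 0 = 1 := by
    unfold up
    rw [zpow_zero]
    rfl
  refine ⟨DZP_norm α, ?_, ?_, ?_, ?_, ?_, hC.cnorm, ?_⟩
  · intro b
    apply le_antisymm
    · exact NonUnitalStarAlgHom.norm_apply_le ι b
    · have h := hC.cnorm 0 (ι b * up u 0)
      rw [hC.cval, if_pos rfl, h0, mul_one] at h
      exact h
  · exact DZP_unit u
  · have h := DZP_unit (u⁻¹)
    exact h
  · intro b
    change (u : A) * ι b = ι (b.comp (α.symm : C(X, X))) * (u : A)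
    rw [← hC.cov b, mul_assoc, mul_assoc]
    rw [Unitary.coe_star_mul_self, mul_one]
  · have h := hC.dense
    have e : {a : A | ∃ (b : C(X, ℂ)) (n : ℤ), a = ι.toAlgHom b * (((Unitary.toUnits u) ^ n : Aˣ) : A)} =
        {a : A | ∃ (f : C(X, ℂ)) (n : ℤ), a = ι f * ((u ^ n : unitary A) : A)} := by
      ext a
      constructor
      · rintro ⟨b, n, rfl⟩
        exact ⟨b, n, by rw [DZP_up]; rfl⟩
      · rintro ⟨b, n, rfl⟩
        exact ⟨b, n, by rw [DZP_up]; rfl⟩
    rw [e]
    exact h
  · intro m n b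
    rw [DZP_up]
    exact hC.cval m n b

end Pool.Agent.PV
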